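import Pool.Agent.H902F.Fin

set_option autoImplicit false

/-!
# The error term for divisors on the projective line which contain a pair of conjugate points

`X = P^1` over `ℚ`, `S = {∞}`, `D = {Q = 0} + {F = 0} + {G = 0}`, where `Q = a x² + b x y + c y²` has two
distinct zeros (rational or conjugate), `F` is a form of degree `n ≥ 1` without rational zeros, prime to
`Q`, and `G` an arbitrary form of degree `m`, `QFG` squarefree. For a point `P = (x : y)`, with coprime
integers `x, y`, `h(P) = log max(|x|, |y|)`, `N_S^(1)(D, P)` is the sum of `log p` over the primes dividing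
`Q(x, y) F(x, y) G(x, y)`, and `h_{K_X + D}(P) = (n + m) h(P) + O(1)`. For all real `A` and `C` there are
infinitely many points with `N_S^(1)(D, P) + A log h + C ≤ (n + m) h`.

The complement of `Q = 0` is a torus, not split if the zeros of `Q` are conjugate. Let `δ² = b² - 4ac`,
`P` a large prime modulo whose powers `δ` and a root `ρ` of `F` exist, `r = 4 T + 3`. The exponents
`e_i(x) ∈ ℤ[x²]` of degree at most `6` with `∏ ((1 + i δ x) / (1 - i δ x)) ^ e_i(x) ≡ 1 (mod x ^ r)`
contain a nearly diagonal basis (a confluent Vandermonde determinant), so that each element `≡ 1 (mod P)`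
of the torus over `ℤ / P^r` is a product of powers of the `(1 + i δ P) / (1 - i δ P)`, `i ≤ T`, with
exponents between `1` and `K P ^ 6`. So there is a point with `log h ≤ 8 log P` and `P ^ r ∣ F(x, y)`,
while `rad Q(x, y) ≤ C P ^ (2 T + 2)`.
-/

namespace Pool.Agent.Results.MP_44a246_nt.ConjugatePairErrorTerm

open Polynomial

/-- the height `h(x : y)` of the point `(x : y)`, `x` and `y` being coprime integers -/
noncomputable def h (x y : ℤ) : ℝ := Real.log ((max |x| |y| : ℤ) : ℝ)

/-- the sum of `log p` over the primes dividing `n` -/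
noncomputable def rad (n : ℤ) : ℝ := ∑ p ∈ n.natAbs.primeFactors, Real.log p

/-- the binary form `F(x, y) = ∑ f_k x ^ k y ^ (n - k) = y ^ n f(x / y)`, `n` being the degree of `f` -/
def F (f : ℤ[X]) (x y : ℤ) : ℤ :=
  ∑ k ∈ Finset.range (f.natDegree + 1), f.coeff k * x ^ k * y ^ (f.natDegree - k)

/-- Let `Q = a x² + b x y + c y²`, `a ≠ 0`, have a nonzero discriminant, let `f` be a polynomial of degree
`n ≥ 1` without rational roots and coprime to `a X² + b X + c` in `ℚ[X]`, and let `G ≠ 0` be a form of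
degree `m`. For all real `A`, `C` there are coprime integers `x, y` with `Q(x, y) ≠ 0`, `F(x, y) ≠ 0`,
`G(x, y) ≠ 0`, `h(x, y) > C` and `rad(Q(x, y) F(x, y) G(x, y)) + A log h + C ≤ (n + m) h`. -/
theorem result (a b c : ℤ) (ha : a ≠ 0) (hd : b ^ 2 - 4 * a * c ≠ 0) (f : ℤ[X])
    (hf : 1 ≤ f.natDegree) (hroot : ∀ t : ℚ, aeval t f ≠ 0)
    (hcop : IsCoprime (f.map (Int.castRingHom ℚ))
      ((C a * X ^ 2 + C b * X + C c : ℤ[X]).map (Int.castRingHom ℚ)))
    (m : ℕ) (G : MvPolynomial (Fin 2) ℤ) (hG : G.IsHomogeneous m) (hG0 : G ≠ 0) (A C : ℝ) :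
    ∃ x y : ℤ, IsCoprime x y ∧ a * x ^ 2 + b * x * y + c * y ^ 2 ≠ 0 ∧ F f x y ≠ 0 ∧
      MvPolynomial.eval ![x, y] G ≠ 0 ∧ C < h x y ∧
      rad ((a * x ^ 2 + b * x * y + c * y ^ 2) * F f x y * MvPolynomial.eval ![x, y] G) +
        A * Real.log (h x y) + C ≤ (f.natDegree + m) * h x y :=
  Pool.Agent.H902F.main a b c ha hd f hf hroot hcop m G hG hG0 A C

end Pool.Agent.Results.MP_44a246_nt.ConjugatePairErrorTerm
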