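import Pool.Agent.H902C.Main

set_option autoImplicit false

/-!
# The error term in Vojta's inequality with truncated counting function on `P^n`

`X = P^n` over `ℚ`, `S = {∞}`, `D` = the `n + 1` coordinate hyperplanes and a hypersurface `F = 0`.
For a point `P = [1 : c_1 : … : c_n]` with positive integers `c_j` one has `h(P) = log max c_j`,
`N_S^(1)(D, P)` is the sum of `log p` over the primes `p` dividing `c_1 ⋯ c_n F(c)`, and
`h_{K_X + D}(P) = deg F · h(P)` is at least `log M`, where `M` is the largest monomial of `F` at `c`.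
Outside every proper Zariski closed set there are such points with
`N_S^(1)(D, P) + (log h(P)) ^ 2 / 34 + C < log M`, for every constant `C`.

The coordinates are products of `l` and of powers of `1 + i Q`, `i = 1, …, T`, where `Q` is a prime
of size `8 ^ T` modulo which a specialisation `F(t_1, …, x, …, t_n)` has a simple root, `0 < l < Q`;
the exponents, of size `exp (O (T))`, are such that `c_j ≡ t_j`, respectively `c_i ≡` the root, modulo
`Q ^ (2 T + 1)`. Every residue class prime to `Q` is reached in this way by means of Padé approximants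
of the logarithm.
-/

namespace Pool.Agent.Results.MP_44a246_nt.ErrorTermOnPn

open MvPolynomial

/-- the height `h(P)` of the point `P = [1 : c_1 : … : c_n]`, all `c_j` being positive integers:
the logarithm of the largest coordinate -/
noncomputable def h {n : ℕ} (c : Fin n → ℕ) : ℝ := Real.log ((Finset.univ.sup c : ℕ) : ℝ)

/-- the truncated counting function: the sum of `log p` over the primes dividing
`c_1 ⋯ c_n F(c_1, …, c_n)` -/
noncomputable def N1 {n : ℕ} (F : MvPolynomial (Fin n) ℤ) (c : Fin n → ℕ) : ℝ :=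
  ∑ p ∈ ((∏ j, c j) * (eval (fun j => (c j : ℤ)) F).natAbs).primeFactors, Real.log p

/-- the largest of the values at `c` of the monomials which occur in `F` -/
def M {n : ℕ} (F : MvPolynomial (Fin n) ℤ) (c : Fin n → ℕ) : ℕ :=
  F.support.sup fun m => ∏ j, c j ^ m j

/-- Let a variable `x_i` occur in `F` and not divide `F`. For every nonzero polynomial `G` and every
real `C` there are positive integers `c_1, …, c_n` with `G(c) ≠ 0`, `F(c) ≠ 0` and
`N1 + (log h) ^ 2 / 34 + C < log M ≤ deg F · h`. -/
theorem result {n : ℕ} (F G : MvPolynomial (Fin n) ℤ) (i : Fin n) (hi : i ∈ F.vars)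
    (hX : ¬ X i ∣ F) (hG : G ≠ 0) (C : ℝ) :
    ∃ c : Fin n → ℕ, (∀ j, 1 ≤ c j) ∧ eval (fun j => (c j : ℤ)) G ≠ 0 ∧
      eval (fun j => (c j : ℤ)) F ≠ 0 ∧
      N1 F c + Real.log (h c) ^ 2 / 34 + C < Real.log (M F c) ∧
      Real.log (M F c) ≤ F.totalDegree * h c := by
  obtain ⟨c, H, h1, h2, ⟨j, h3⟩, -, h4, h5, h6⟩ := Pool.Agent.H902C.core F G i hi hX hG C 1
  have hH : Finset.univ.sup c = H := by
    apply le_antisymm (Finset.sup_le fun j _ => h2 j)
    rw [← h3]
    exact Finset.le_sup (f := c) (Finset.mem_univ j)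
  have hH1 : 1 ≤ H := (h1 j).trans (h2 j)
  refine ⟨c, h1, h4, h5, ?_, ?_⟩
  · have h7 : N1 F c = Real.log (Pool.Agent.H902A.rad
        ((∏ j, c j) * (eval (fun j => (c j : ℤ)) F).natAbs)) := by
      unfold N1 Pool.Agent.H902A.rad
      rw [Nat.cast_prod, Real.log_prod]
      intro p hp
      exact_mod_cast (Nat.prime_of_mem_primeFactors hp).ne_zero
    rw [h7]
    unfold h
    rw [hH]
    exact h6
  · have h8 : M F c ≤ H ^ F.totalDegree := Pool.Agent.H902C.maxMon_le F c H hH1 h2
    have hF : F ≠ 0 := by
      rintro rfl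
      simp at hi
    have h9 : 1 ≤ M F c := Pool.Agent.H902C.maxMon_pos F hF c h1
    unfold h
    rw [hH, ← Real.log_pow]
    exact Real.log_le_log (by exact_mod_cast h9) (by exact_mod_cast h8)

end Pool.Agent.Results.MP_44a246_nt.ErrorTermOnPn
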