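import Mathlib
import Pool.Agent.Helper892.EC.Main

/-!
# The error term of the truncated inequality on every curve

Let `X` be a smooth projective curve over a number field, `t : X → ℙ¹` a finite map of degree `N` over
`ℚ` (if `X` is a curve over `K`, then `N` is `[K : ℚ]` times the degree over `ℙ¹_K`), unramified over
`0` and `∞` and ramified over `1`, and `D = t^*(0) + t^*(∞)`, a reduced divisor. Every curve has such
maps: for instance `t = μ(f ^ 2)`, where `f` is any nonconstant function and `μ` a suitable Moebius
transformation with `μ(0) = 1`.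

The data: `A` is the ring of the functions on `X` with poles only over `∞`. The sheaf `t_* O_X` is a
direct sum of line bundles `O(-e_i)`; this gives a basis `v_i` of `A` over `ℚ[t]` such that the
functions with poles of order at most `n` over `∞` are the sums `∑ f_i v_i` with `deg f_i + e_i ≤ n`.
In particular `deg f_l + e_l ≤ e_i + e_j` for the coefficients of `v_i v_j`. By Riemann-Roch
`2 ∑ e_i = 2 g - 2 + 2 N = deg (K_X + D)` (`g` is the genus over `ℚ`), and the fibres `A / (t - c)` are
reduced for all but finitely many `c`. The points over `1` with ramification indices `r_P` give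
`ν = ∑ ⌊r_P / 2⌋ deg P > 0` linearly independent elements of `A / (t - 1)` with square zero (the
elements which vanish to order at least `r_P / 2` at every `P`). Finally a height
`h = h_{K_X + D}` satisfies
`∑_{P over c} [ℚ(P) : ℚ] h(P) = deg (K_X + D) h(c) + O(1)`,
because the left side is a height for the divisor `t_* (K_X + D)` of the line. (We need only `≥`.)

The theorem: there are points `P` of degree at most `N`, over rational numbers `t` of arbitrarily
large height, with `h_{K_X + D}(P) ≥ N^(1)(D, P) + d(P) + h(t) ^ β`, for every `β < ν / (N + ν)`.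
So on every curve there is a reduced divisor `D` such that in the conjecture for `X`, `D` and
`r = N` the term `ε h_A(P)` cannot be replaced by `h_A(P) ^ β`, `β < 1 / 3`.

Proof. By the pigeonhole principle there are coprime `a > b`, products of powers of the odd primes
`p ≤ Y` with exponents at most `Y ^ κ`, which are congruent modulo `2 ^ m`, where `m log 2` is about
`κ Y`. For `t = a / b` the primes counted in `N^(1)(D, P)` divide `a b`, so `N^(1)(D, P) ≤ θ(Y)`. The
elements `b ^ (e_i) v_i(P)` of `∏ ℚ(P)` (the product over all points `P` over `t`) are integral up to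
a bounded denominator and their conjugates are `O(a ^ (e_i))`; therefore
`∑ log |disc ℚ(P)| ≤ 2 (∑ e_i) h(t) + O(1)`. But the fibre over `t` is close, at the prime `2`, to the
fibre over `1`: the squares of `ν` elements of the lattice are divisible by `2 ^ m`, so these elements
are divisible by `2 ^ (m / 2)` in the rings of integers, and `∑ log |disc ℚ(P)|` is smaller than this
bound by `ν m log 2`. One of the points `P` satisfies the inequality, since the sum of
`[ℚ(P) : ℚ] h(P)` over the fibre is at least `2 (∑ e_i) h(t) - O(1)`.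
-/

set_option autoImplicit false

open NumberField Polynomial IsDedekindDomain

namespace Pool.Agent.Results.MP_44a246_nt.EveryCurveErrorTerm

/-- The ideal of the fibre of `Spec A` over the rational point `c` of the line. -/
noncomputable def fibreIdeal (A : Type) [CommRing A] [Algebra ℚ[X] A] (c : ℚ) : Ideal A :=
  Ideal.span {algebraMap ℚ[X] A (X - C c)}

/-- The closed points of `Spec A` over the rational point `c` of the line. -/
def fibre (A : Type) [CommRing A] [Algebra ℚ[X] A] (c : ℚ) : Set (Ideal A) :=
  {P | P.IsMaximal ∧ algebraMap ℚ[X] A (X - C c) ∈ P}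

/-- The logarithmic discriminant `log |disc L| / [L : ℚ]`. -/
noncomputable def logDisc (L : Type) [Field L] [NumberField L] : ℝ :=
  Real.log |(discr L : ℝ)| / Module.finrank ℚ L

/-- The local height, at the prime `q` of `L`, relative to `D = t^*(0) + t^*(∞)`, of a point with
`t = t(P)`: it is `log⁺ |t|_q + log⁺ |1 / t|_q = |log |t|_q|`. -/
noncomputable def localHeight {L : Type} [Field L] [NumberField L] (q : HeightOneSpectrum (𝓞 L))
    (t : L) : ℝ :=
  Real.posLog (HeightOneSpectrum.adicAbv L q t) + Real.posLog (HeightOneSpectrum.adicAbv L q t⁻¹)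

/-- The truncated counting function `N^(1)(D, P)` (over all primes) of a point over `L` with
`t = t(P)`: the sum of `log N(q) / [L : ℚ]` over the primes `q` of `L` where the local height is
positive. -/
noncomputable def truncatedCounting {L : Type} [Field L] [NumberField L] (t : L) : ℝ :=
  (∑ᶠ q ∈ {q : HeightOneSpectrum (𝓞 L) | 0 < localHeight q t},
    Real.log (Ideal.absNorm q.asIdeal : ℕ)) / Module.finrank ℚ L

/-- **The error term in Vojta's conjecture with truncated counting function on every curve.** Let `A`
be a `ℚ[t]`-algebra with a basis `v_1, …, v_N` over `ℚ[t]` and let `e_1, …, e_N ≥ 0` be integers such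
that `v_i v_j = ∑ f_l v_l` with `deg f_l + e_l ≤ e_i + e_j` whenever `f_l ≠ 0`. Suppose that
`A / (t - c)` is reduced for all but finitely many rational numbers `c` and that
`u_1, …, u_ν ∈ A` (`ν > 0`) have squares divisible by `t - 1` and are linearly independent modulo
`t - 1`. Let `H` be a real function on the closed points such that
`∑_{P over c} [A / P : ℚ] H(P) ≥ 2 (∑ e_i) h(c) - B` for all rational numbers `c`, and let
`0 < β < ν / (N + ν)`. For every `T` there are a rational number `t` of height larger than `T` and a
point `P` over `t` with residue field `L`, `[L : ℚ] ≤ N`, such that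
`H(P) ≥ N^(1)(D, P) + log |disc L| / [L : ℚ] + h(t) ^ β`. -/
theorem result {A : Type} [CommRing A] [Algebra ℚ[X] A] [Algebra ℚ A] [IsScalarTower ℚ ℚ[X] A]
    {N : ℕ} (v : Module.Basis (Fin N) ℚ[X] A) (e : Fin N → ℕ)
    (hv : ∀ i j l, v.repr (v i * v j) l ≠ 0 → (v.repr (v i * v j) l).natDegree + e l ≤ e i + e j)
    (hA : {c : ℚ | ¬ IsReduced (A ⧸ fibreIdeal A c)}.Finite)
    {ν : ℕ} (hν : 0 < ν) (u : Fin ν → A) (hu2 : ∀ i, u i ^ 2 ∈ fibreIdeal A 1)
    (hu : LinearIndependent ℚ fun i => Ideal.Quotient.mk (fibreIdeal A 1) (u i))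
    (H : Ideal A → ℝ) (B : ℝ)
    (hH : ∀ c : ℚ, 2 * (∑ i, e i : ℕ) * Height.logHeight₁ c - B ≤
      ∑ᶠ P ∈ fibre A c, (Module.finrank ℚ (A ⧸ P) : ℝ) * H P)
    (β : ℝ) (hβ0 : 0 < β) (hβ : β < ν / (N + ν)) (T : ℝ) :
    ∃ t : ℚ, T < Height.logHeight₁ t ∧ ∃ P ∈ fibre A t,
      ∃ (L : Type) (_ : Field L) (_ : NumberField L) (φ : A →+* L),
        Function.Surjective φ ∧ RingHom.ker φ = P ∧ Module.finrank ℚ L ≤ N ∧
        truncatedCounting (t : L) + logDisc L + (Height.logHeight₁ t) ^ β ≤ H P := by
  obtain ⟨t, P, L, iF, iN, φ, hP, hφs, hφk, hdeg, hT, hmain⟩ :=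
    Pool.Agent.Helper892.EC.main v e hv hA hν u hu2 hu H B hH β hβ0 hβ T
  refine ⟨t, hT, P, hP, L, iF, iN, φ, hφs, hφk, hdeg, ?_⟩
  have e1 : truncatedCounting (t : L) =
      Pool.Agent.Helper892.ST.tcL ℚ ∅ (algebraMap ℚ L t) := by
    unfold truncatedCounting Pool.Agent.Helper892.ST.tcL
    congr 1
    have e2 : {q : HeightOneSpectrum (𝓞 L) | 0 < localHeight q (t : L)} =
        {w : HeightOneSpectrum (𝓞 L) | w ∉ Pool.Agent.Helper892.ER.above (k := ℚ) ∅ L ∧
          0 < Real.posLog (Pool.Agent.Helper892.ER.av w (algebraMap ℚ L t)) +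
            Real.posLog (Pool.Agent.Helper892.ER.av w (algebraMap ℚ L t)⁻¹)} := by
      ext w
      have e3 : w ∉ Pool.Agent.Helper892.ER.above (k := ℚ) ∅ L := by
        rintro ⟨v, hv, -⟩
        exact absurd hv (Finset.notMem_empty v)
      have e4 : (algebraMap ℚ L t) = (t : L) := eq_ratCast _ t
      rw [Set.mem_ofPred_eq, Set.mem_ofPred_eq, e4]
      exact ⟨fun h => ⟨e3, h⟩, fun h => h.2⟩
    rw [e2]
  rw [e1]
  exact hmain

end Pool.Agent.Results.MP_44a246_nt.EveryCurveErrorTerm
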