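import Mathlib
import Pool.Agent.Helper892.ST.Main

/-!
# The error term of the truncated inequality on superelliptic curves

`K` is any number field, `N ≥ 2`, `e ≥ 1`, `F` a polynomial over `K` of degree at most `N e` with
`F(1) = 0`, `X` the smooth projective curve with the equation `w ^ N = F(t)` and `D` the divisor
`t^*(0) + t^*(∞)`. If `F` has degree `N e` and no multiple roots and `F(0) ≠ 0`, then `X` is smooth in
the affine part, it has genus `1 - N + N (N - 1) e / 2`, `D` is reduced of degree `2 N`, and
`K_X + D` is linearly equivalent to `(N - 1) e t^*(∞)`: an ample divisor with the height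
`h_{K_X + D}(P) = (N - 1) e h(t(P))`. (Any root of `F` in `K`, different from `0`, can be moved to `1`
by a change of the coordinate `t`, which does not change `D`.)

The theorem: there are points `P` of degree at most `N` and arbitrarily large height with
`h_{K_X + D}(P) ≥ N^(1)_S(D, P) + d_{K(P)/K} + h_{K_X + D}(P) ^ β`, for every
`β < (N - 1) / (2 N - 1)`. So in the conjecture for `X`, `D` and `r = N` the term `ε h_A(P)` cannot be
replaced by `h_A(P) ^ β`.

Proof (the method of Stewart and Tijdeman). By the pigeonhole principle there are `a > b` which are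
products of powers of the odd primes `p ≤ Y` with exponents at most `A`, coprime, and congruent
modulo `2 ^ m`, where `m log 2` is about `(π(Y) - 1) log A`. We take the points over `t = a / b`. The
primes of `K(P)` which count in `N^(1)(D, P)` divide `a b`, so `N^(1)(D, P) ≤ [K : ℚ] θ(Y)`. On the
other hand `K(P) = K(α)` for an `N`-th root `α` of an integer whose norm is smaller than expected by
the factor `2 ^ (m [K : ℚ])`, because `F(1) = 0`; this gives
`d_{K(P)/K} ≤ h_{K_X + D}(P) - (1 - 1 / N) [K : ℚ] m log 2 + O(1)`. Take `A = Y ^ κ` with `κ` a little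
larger than `N / (N - 1)`.
-/

set_option autoImplicit false

open NumberField Polynomial IsDedekindDomain

namespace Pool.Agent.Results.MP_44a246_nt.SuperellipticErrorTerm

variable (K : Type) [Field K] [NumberField K]

/-- The height, relative to `K`, of the point `t` of the line over `L ⊇ K` (`Height.logHeight₁` is
the height over `L`, not divided by the degree). -/
noncomputable def height {L : Type} [Field L] [NumberField L] [Algebra K L] (t : L) : ℝ :=
  Height.logHeight₁ t / Module.finrank K L

/-- The logarithmic discriminant `d_{L/K} = log |disc L| / [L : K] - log |disc K|`. -/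
noncomputable def logDisc (L : Type) [Field L] [NumberField L] [Algebra K L] : ℝ :=
  Real.log |(discr L : ℝ)| / Module.finrank K L - Real.log |(discr K : ℝ)|

variable {K}

/-- The primes of `L` above the primes in `S`. -/
def primesAbove (S : Finset (HeightOneSpectrum (𝓞 K))) (L : Type) [Field L] [NumberField L]
    [Algebra K L] : Set (HeightOneSpectrum (𝓞 L)) :=
  {q | ∃ p ∈ S, q.asIdeal.LiesOver p.asIdeal}

/-- The local height, at the prime `q` of `L`, relative to `D = t^*(0) + t^*(∞)`, of a point with
`t = t(P)`: it is `log⁺ |t|_q + log⁺ |1 / t|_q = |log |t|_q|`. -/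
noncomputable def localHeight {L : Type} [Field L] [NumberField L] (q : HeightOneSpectrum (𝓞 L))
    (t : L) : ℝ :=
  Real.posLog (HeightOneSpectrum.adicAbv L q t) + Real.posLog (HeightOneSpectrum.adicAbv L q t⁻¹)

/-- The truncated counting function `N^(1)_S(D, P)`, relative to `K`, of a point over `L` with
`t = t(P)`: the sum of `log N(q) / [L : K]` over the primes `q` of `L` which do not lie above `S` and
where the local height is positive. -/
noncomputable def truncatedCounting (S : Finset (HeightOneSpectrum (𝓞 K))) {L : Type} [Field L]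
    [NumberField L] [Algebra K L] (t : L) : ℝ :=
  (∑ᶠ q ∈ {q : HeightOneSpectrum (𝓞 L) | q ∉ primesAbove S L ∧ 0 < localHeight q t},
    Real.log (Ideal.absNorm q.asIdeal : ℕ)) / Module.finrank K L

/-- **The error term in Vojta's conjecture with truncated counting function on superelliptic
curves.** Let `K` be a number field, `N ≥ 2`, `e ≥ 1`, `F ≠ 0` a polynomial over `K` of degree at most
`N e` with `F(1) = 0`, `X : w ^ N = F(t)`, `D = t^*(0) + t^*(∞)`, `S` a finite set of primes of `K`
(in addition to the archimedean places) and `0 < β < (N - 1) / (2 N - 1)`. For every `T` there is a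
closed point `P = (t, w)` of `X` of degree at most `N`, with residue field `L`, such that
`h(P) = (N - 1) e h(t)` is larger than `T` and `h(P) ≥ N^(1)_S(D, P) + d_{L/K} + h(P) ^ β`. -/
theorem result (N e : ℕ) (hN : 2 ≤ N) (he : 1 ≤ e) (F : K[X]) (hF0 : F ≠ 0) (hF1 : F.eval 1 = 0)
    (hF : F.natDegree ≤ N * e) (S : Finset (HeightOneSpectrum (𝓞 K))) (β : ℝ) (hβ0 : 0 < β)
    (hβ : β < (N - 1) / (2 * N - 1)) (T : ℝ) :
    ∃ (L : Type) (_ : Field L) (_ : NumberField L) (_ : Algebra K L) (t w : L),
      w ^ N = aeval t F ∧ IntermediateField.adjoin K {t, w} = ⊤ ∧ Module.finrank K L ≤ N ∧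
      T < (N - 1) * e * height K t ∧
      truncatedCounting S t + logDisc K L + ((N - 1) * e * height K t) ^ β ≤
        (N - 1) * e * height K t := by
  obtain ⟨L, iF, iN, iA, u, w, hw, htop, hdeg, hT, h⟩ :=
    Pool.Agent.Helper892.ST.main K F hF0 hF1 hN he hF S β hβ0 hβ T
  have hh : height K (algebraMap K L u) = Height.logHeight₁ u :=
    Pool.Agent.Helper892.VE.lH_eq L u
  refine ⟨L, iF, iN, iA, algebraMap K L u, w, ?_, ?_, hdeg, ?_, ?_⟩
  · rw [hw, aeval_algebraMap_apply, coe_aeval_eq_eval]
  · rw [eq_top_iff, ← htop]
    exact IntermediateField.adjoin.mono K _ _ (by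
      rw [Set.singleton_subset_iff]
      exact Set.mem_insert_of_mem _ rfl)
  · rw [hh]
    exact hT
  · rw [hh]
    exact h

end Pool.Agent.Results.MP_44a246_nt.SuperellipticErrorTerm
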